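import Mathlib
set_option autoImplicit false
namespace Pool.Agent.MP_db34dc_nt

/-- polynomial vs. exponential, in the form needed. -/
theorem exists_bound_pow (c δ : ℝ) (hδ : 0 < δ) :
    ∃ K : ℝ, 1 ≤ K ∧ ∀ n : ℕ, ((n : ℝ) + 2) ^ c ≤ K * (2 : ℝ) ^ (δ * n) := by
  have h1 : Filter.Tendsto (fun x : ℝ => x ^ c * Real.exp (-(δ * Real.log 2) * x)) Filter.atTop
      (nhds 0) := by
    have hb : 0 < δ * Real.log 2 := mul_pos hδ (Real.log_pos one_lt_two)
    exact tendsto_rpow_mul_exp_neg_mul_atTop_nhds_zero c _ hb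
  have h2 : Filter.Tendsto (fun n : ℕ => ((n : ℝ) + 2)) Filter.atTop Filter.atTop :=
    Filter.tendsto_atTop_add_const_right _ _ tendsto_natCast_atTop_atTop
  have h3 := (h1.comp h2).bddAbove_range
  obtain ⟨B, hB⟩ := h3
  refine ⟨max 1 (B * (2 : ℝ) ^ (2 * δ)), le_max_left _ _, fun n => ?_⟩
  have h4 : ((n : ℝ) + 2) ^ c * Real.exp (-(δ * Real.log 2) * ((n : ℝ) + 2)) ≤ B :=
    hB ⟨n, rfl⟩
  have h5 : Real.exp (-(δ * Real.log 2) * ((n : ℝ) + 2)) =
      ((2 : ℝ) ^ (2 * δ) * (2 : ℝ) ^ (δ * n))⁻¹ := by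
    rw [← Real.rpow_add two_pos, ← Real.rpow_neg two_pos.le, Real.rpow_def_of_pos two_pos]
    congr 1; ring
  rw [h5] at h4
  have h6 : 0 < (2 : ℝ) ^ (2 * δ) * (2 : ℝ) ^ (δ * n) := by positivity
  have h7 : ((n : ℝ) + 2) ^ c ≤ B * ((2 : ℝ) ^ (2 * δ) * (2 : ℝ) ^ (δ * n)) := by
    rw [← div_eq_mul_inv, div_le_iff₀ h6] at h4
    exact h4
  calc ((n : ℝ) + 2) ^ c ≤ B * ((2 : ℝ) ^ (2 * δ) * (2 : ℝ) ^ (δ * n)) := h7
    _ = (B * (2 : ℝ) ^ (2 * δ)) * (2 : ℝ) ^ (δ * n) := by ring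
    _ ≤ _ := by
      apply mul_le_mul_of_nonneg_right (le_max_right _ _) (by positivity)

/-- The divisor bound `τ(n) ≤ K n^δ`. -/
theorem divisor_bound (δ : ℝ) (hδ : 0 < δ) :
    ∃ K : ℝ, 1 ≤ K ∧ ∀ n : ℕ, n ≠ 0 → (n.divisors.card : ℝ) ≤ K * (n : ℝ) ^ δ := by
  obtain ⟨K0, hK0, hK⟩ := exists_bound_pow 1 δ hδ
  set B : ℕ := ⌈(2 : ℝ) ^ (1 / δ)⌉₊ with hB
  refine ⟨K0 ^ B, one_le_pow₀ hK0, fun n hn => ?_⟩
  rw [Nat.card_divisors hn]
  push_cast
  -- pointwise bound
  have key : ∀ p ∈ n.primeFactors, ((n.factorization p : ℝ) + 1) ≤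
      (if p < B then K0 else 1) * ((p : ℝ) ^ (n.factorization p)) ^ δ := by
    intro p hp
    have hp' : p.Prime := Nat.prime_of_mem_primeFactors hp
    have hp2 : (2 : ℝ) ≤ p := by exact_mod_cast hp'.two_le
    set e := n.factorization p
    have hrw : ((p : ℝ) ^ e) ^ δ = ((p : ℝ) ^ δ) ^ e := by
      rw [← Real.rpow_natCast, ← Real.rpow_mul (by positivity), mul_comm, Real.rpow_mul
        (by positivity), Real.rpow_natCast]
    split_ifs with h
    · have h1 := hK e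
      rw [Real.rpow_one] at h1
      have h2 : (2 : ℝ) ^ (δ * e) ≤ ((p : ℝ) ^ e) ^ δ := by
        rw [hrw, Real.rpow_mul two_pos.le, Real.rpow_natCast]
        apply pow_le_pow_left₀ (by positivity)
        exact Real.rpow_le_rpow two_pos.le hp2 hδ.le
      calc (e : ℝ) + 1 ≤ (e : ℝ) + 2 := by linarith
        _ ≤ K0 * (2 : ℝ) ^ (δ * e) := h1
        _ ≤ K0 * ((p : ℝ) ^ e) ^ δ := by
          apply mul_le_mul_of_nonneg_left h2 (by linarith)
    · push Not at h
      rw [one_mul, hrw]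
      have h1 : (2 : ℝ) ^ (1 / δ) ≤ p := by
        calc (2 : ℝ) ^ (1 / δ) ≤ B := Nat.le_ceil _
          _ ≤ p := by exact_mod_cast h
      have h2 : (2 : ℝ) ≤ (p : ℝ) ^ δ := by
        have := Real.rpow_le_rpow (by positivity) h1 hδ.le
        rwa [← Real.rpow_mul two_pos.le, one_div, inv_mul_cancel₀ hδ.ne', Real.rpow_one] at this
      calc (e : ℝ) + 1 ≤ (2 : ℝ) ^ e := by
            have := (Nat.lt_two_pow_self (n := e))
            exact_mod_cast this
        _ ≤ _ := pow_le_pow_left₀ two_pos.le h2 e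
  calc ∏ x ∈ n.primeFactors, ((n.factorization x : ℝ) + 1)
      ≤ ∏ p ∈ n.primeFactors, ((if p < B then K0 else 1) * ((p : ℝ) ^ (n.factorization p)) ^ δ) :=
        Finset.prod_le_prod (fun _ _ => by positivity) key
    _ = (∏ p ∈ n.primeFactors, (if p < B then K0 else 1)) *
          ∏ p ∈ n.primeFactors, ((p : ℝ) ^ (n.factorization p)) ^ δ := Finset.prod_mul_distrib
    _ ≤ K0 ^ B * (n : ℝ) ^ δ := by
        have h1 : ∏ p ∈ n.primeFactors, ((p : ℝ) ^ (n.factorization p)) ^ δ = (n : ℝ) ^ δ := by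
          rw [Real.finsetProd_rpow _ _ (fun i _ => by positivity)]
          congr 1
          conv_rhs => rw [← Nat.prod_factorization_pow_eq_self hn]
          rw [Nat.prod_factorization_eq_prod_primeFactors]
          push_cast
          rfl
        rw [h1]
        apply mul_le_mul_of_nonneg_right _ (by positivity)
        rw [Finset.prod_ite, Finset.prod_const_one, mul_one, Finset.prod_const]
        apply pow_le_pow_right₀ hK0
        calc (Finset.filter (fun x => x < B) n.primeFactors).card ≤ (Finset.range B).card := by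
              apply Finset.card_le_card
              intro x hx
              rw [Finset.mem_filter] at hx
              exact Finset.mem_range.2 hx.2
          _ = B := Finset.card_range B

/-- Rankin-type bound: the sum of `∏_{y ∈ A} y^{-s}` over multisets of integers `≥ 2` converges. -/
theorem multiset_sum_bound (s : ℝ) (hs : 1 < s) :
    ∃ K : ℝ, ∀ 𝒜 : Finset (Multiset ℕ), (∀ A ∈ 𝒜, ∀ y ∈ A, 2 ≤ y) →
      ∑ A ∈ 𝒜, (A.map (fun y : ℕ => (y : ℝ) ^ (-s))).prod ≤ K := by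
  have hsum : Summable fun n : ℕ => (n : ℝ) ^ (-s) := Real.summable_nat_rpow.2 (by linarith)
  refine ⟨Real.exp (2 * ∑' n : ℕ, (n : ℝ) ^ (-s)), fun 𝒜 h𝒜 => ?_⟩
  classical
  -- bounds for elements and multiplicities
  obtain ⟨B, hB⟩ : ∃ B : ℕ, ∀ A ∈ 𝒜, ∀ y ∈ A, y < B := by
    refine ⟨(∑ A ∈ 𝒜, A.sum) + 1, fun A hA y hy => ?_⟩
    have h1 : y ≤ A.sum := Multiset.single_le_sum (fun _ _ => Nat.zero_le _) _ hy
    have h2 : A.sum ≤ ∑ A ∈ 𝒜, A.sum :=
      Finset.single_le_sum (f := fun A : Multiset ℕ => A.sum) (fun _ _ => Nat.zero_le _) hA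
    omega
  obtain ⟨E, hE⟩ : ∃ E : ℕ, ∀ A ∈ 𝒜, ∀ y, A.count y < E := by
    refine ⟨(∑ A ∈ 𝒜, Multiset.card A) + 1, fun A hA y => ?_⟩
    have h1 : A.count y ≤ Multiset.card A := Multiset.count_le_card y A
    have h2 : Multiset.card A ≤ ∑ A ∈ 𝒜, Multiset.card A :=
      Finset.single_le_sum (f := fun A : Multiset ℕ => Multiset.card A)
        (fun _ _ => Nat.zero_le _) hA
    omega
  set S := Finset.Ico 2 B with hS
  have hw : ∀ y ∈ S, 0 ≤ (y : ℝ) ^ (-s) ∧ (y : ℝ) ^ (-s) ≤ 1 / 2 := by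
    intro y hy
    rw [hS, Finset.mem_Ico] at hy
    have hy2 : (2 : ℝ) ≤ y := by exact_mod_cast hy.1
    refine ⟨by positivity, ?_⟩
    rw [Real.rpow_neg (by positivity), one_div]
    apply inv_anti₀ two_pos
    calc (2 : ℝ) ≤ y := hy2
      _ = (y : ℝ) ^ (1 : ℝ) := (Real.rpow_one _).symm
      _ ≤ (y : ℝ) ^ s := Real.rpow_le_rpow_of_exponent_le (by linarith) hs.le
  have hval : ∀ A ∈ 𝒜, (A.map (fun y : ℕ => (y : ℝ) ^ (-s))).prod =
      ∏ y ∈ S, ((y : ℝ) ^ (-s)) ^ (A.count y) := by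
    intro A hA
    rw [Finset.prod_multiset_map_count]
    apply Finset.prod_subset
    · intro y hy
      rw [Multiset.mem_toFinset] at hy
      rw [hS, Finset.mem_Ico]
      exact ⟨h𝒜 A hA y hy, hB A hA y hy⟩
    · intro y _ hy
      rw [Multiset.mem_toFinset] at hy
      rw [Multiset.count_eq_zero_of_notMem hy, pow_zero]
  have hle : ∑ A ∈ 𝒜, (A.map (fun y : ℕ => (y : ℝ) ^ (-s))).prod ≤
      ∑ p ∈ S.pi (fun _ => Finset.range E), ∏ x ∈ S.attach, ((x.1 : ℝ) ^ (-s)) ^ (p x.1 x.2) := by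
    rw [Finset.sum_congr rfl hval]
    set g : Multiset ℕ → ∀ y : ℕ, y ∈ S → ℕ := fun A y _ => A.count y with hg
    set F : (∀ y : ℕ, y ∈ S → ℕ) → ℝ :=
      fun p => ∏ x ∈ S.attach, ((x.1 : ℝ) ^ (-s)) ^ (p x.1 x.2) with hF
    have hinj : Set.InjOn g 𝒜 := by
      intro A hA A' hA' h
      ext y
      by_cases hy : y ∈ S
      · exact congrFun (congrFun h y) hy
      · have h1 : ∀ A ∈ 𝒜, A.count y = 0 := by
          intro A hA
          rw [Multiset.count_eq_zero]
          intro hyA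
          apply hy
          rw [hS, Finset.mem_Ico]
          exact ⟨h𝒜 A hA y hyA, hB A hA y hyA⟩
        rw [h1 A hA, h1 A' hA']
    have h1 : ∑ A ∈ 𝒜, ∏ y ∈ S, ((y : ℝ) ^ (-s)) ^ (A.count y) = ∑ p ∈ 𝒜.image g, F p := by
      rw [Finset.sum_image hinj]
      apply Finset.sum_congr rfl
      intro A _
      exact (Finset.prod_attach S (fun y => ((y : ℝ) ^ (-s)) ^ (A.count y))).symm
    rw [h1]
    apply Finset.sum_le_sum_of_subset_of_nonneg
    · intro p hp
      rw [Finset.mem_image] at hp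
      obtain ⟨A, hA, rfl⟩ := hp
      rw [Finset.mem_pi]
      intro y _
      exact Finset.mem_range.2 (hE A hA y)
    · intro p _ _
      apply Finset.prod_nonneg
      intro x _
      exact pow_nonneg (hw x.1 x.2).1 _
  refine hle.trans ?_
  rw [← Finset.prod_sum S (fun _ => Finset.range E) (fun y j => ((y : ℝ) ^ (-s)) ^ j)]
  calc ∏ y ∈ S, ∑ j ∈ Finset.range E, ((y : ℝ) ^ (-s)) ^ j
      ≤ ∏ y ∈ S, Real.exp (2 * (y : ℝ) ^ (-s)) := by
        apply Finset.prod_le_prod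
        · intro y hy
          exact Finset.sum_nonneg fun j _ => pow_nonneg (hw y hy).1 _
        · intro y hy
          obtain ⟨h0, h1⟩ := hw y hy
          set x := (y : ℝ) ^ (-s)
          have h2 : ∑ j ∈ Finset.range E, x ^ j ≤ (1 - x)⁻¹ := by
            have := (summable_geometric_of_lt_one h0 (by linarith)).sum_le_tsum (Finset.range E)
              (fun j _ => pow_nonneg h0 j)
            rwa [tsum_geometric_of_lt_one h0 (by linarith)] at this
          refine h2.trans ?_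
          have h3 : 1 + 2 * x ≤ Real.exp (2 * x) := by
            have := Real.add_one_le_exp (2 * x); linarith
          refine le_trans ?_ h3
          rw [inv_le_iff_one_le_mul₀ (by linarith)]
          nlinarith
    _ = Real.exp (∑ y ∈ S, 2 * (y : ℝ) ^ (-s)) := (Real.exp_sum _ _).symm
    _ ≤ _ := by
        apply Real.exp_le_exp.2
        rw [← Finset.mul_sum]
        apply mul_le_mul_of_nonneg_left _ two_pos.le
        exact hsum.sum_le_tsum S (fun y _ => by positivity)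

end Pool.Agent.MP_db34dc_nt
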