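import Pool.Agent.Lib_MP_db34dc_nt.Structure
set_option autoImplicit false
namespace Pool.Agent.MP_db34dc_nt

/-- The set of solutions. -/
def Sol (n : ℕ) : Set (Fin n → ℕ) :=
  {x : Fin n → ℕ | Monotone x ∧ (∀ i, 0 < x i) ∧ (∏ i, x i) = n * ∑ i, x i}

/-- Multiset of values. -/
def mset {n : ℕ} (x : Fin n → ℕ) : Multiset ℕ := Finset.univ.val.map x

/-- Largest value. -/
def top {n : ℕ} (x : Fin n → ℕ) : ℕ := (mset x).sup

theorem mem_mset {n : ℕ} (x : Fin n → ℕ) (y : ℕ) : y ∈ mset x ↔ ∃ i, x i = y := by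
  simp [mset]

theorem le_top {n : ℕ} (x : Fin n → ℕ) (y : ℕ) (hy : y ∈ mset x) : y ≤ top x :=
  Multiset.le_sup hy

theorem top_mem {n : ℕ} (hn : 0 < n) (x : Fin n → ℕ) (hx : Monotone x) : top x ∈ mset x := by
  obtain ⟨m, rfl⟩ : ∃ m, n = m + 1 := ⟨n - 1, by omega⟩
  have h1 : top x = x (Fin.last m) := by
    apply le_antisymm
    · apply Multiset.sup_le.2
      intro y hy
      obtain ⟨i, rfl⟩ := (mem_mset x y).1 hy
      exact hx (Fin.le_last i)
    · exact le_top x _ ((mem_mset x _).2 ⟨_, rfl⟩)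
  rw [h1]
  exact (mem_mset x _).2 ⟨_, rfl⟩

/-- the encoding of a solution. -/
def enc (q : Σ n : ℕ, Fin n → ℕ) : Multiset ℕ × ℕ :=
  (core (mset q.2) (top q.2), (core (mset q.2) (top q.2)).prod - q.1)

theorem sol_structure {p : ℕ} (hp : p.Prime) {x : Fin p → ℕ} (hx : x ∈ Sol p) :
    ∃ D ρ : ℕ, 0 < D ∧ (core (mset x) (top x)).prod = p + D ∧
      (core (mset x) (top x)).prod ≤ p * (Multiset.card (core (mset x) (top x)) + 2) ∧
      p = 1 + Multiset.card (core (mset x) (top x)) + ρ ∧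
      top x * D = p * ((core (mset x) (top x)).sum + ρ) ∧
      mset x = top x ::ₘ (core (mset x) (top x) + Multiset.replicate ρ 1) ∧
      D ∣ (core (mset x) (top x)).prod * ((core (mset x) (top x)).sum + ρ + D) := by
  obtain ⟨hmono, hpos, heq⟩ := hx
  apply structure_lemma hp
  · simp [mset]
  · intro y hy
    obtain ⟨i, rfl⟩ := (mem_mset x y).1 hy
    exact hpos i
  · unfold mset
    exact heq
  · exact top_mem hp.pos x hmono
  · exact le_top x

theorem enc_injOn : Set.InjOn enc {q : Σ n : ℕ, Fin n → ℕ | q.1.Prime ∧ q.2 ∈ Sol q.1} := by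
  rintro ⟨p, x⟩ ⟨hp, hx⟩ ⟨p', x'⟩ ⟨hp', hx'⟩ h
  change p.Prime at hp
  change p'.Prime at hp'
  change x ∈ Sol p at hx
  change x' ∈ Sol p' at hx'
  obtain ⟨D, ρ, hD0, hD, -, hρ, htop, hM, -⟩ := sol_structure hp hx
  obtain ⟨D', ρ', hD0', hD', -, hρ', htop', hM', -⟩ := sol_structure hp' hx'
  unfold enc at h
  simp only [Prod.mk.injEq] at h
  obtain ⟨h1, h2⟩ := h
  rw [h1] at hD hρ htop hM h2
  have hpp : p = p' := by omega
  have hDD : D = D' := by omega
  have hρρ : ρ = ρ' := by omega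
  subst hpp hDD hρρ
  have htt : top x = top x' := by
    apply Nat.eq_of_mul_eq_mul_right hD0
    rw [htop, htop']
  have hmm : mset x = mset x' := hM.trans ((by rw [htt]) : _ = _) |>.trans hM'.symm
  have : x = x' := monotone_ext hx.1 hx'.1 hmm
  rw [this]

theorem core_bound (ε : ℝ) (hε : 0 < ε) : ∃ K : ℝ, 0 ≤ K ∧ ∀ A : Multiset ℕ, (∀ y ∈ A, 2 ≤ y) →
    A ≠ 0 →
    (((A.prod * (A.prod + A.sum - (1 + Multiset.card A))).divisors.card : ℝ)) *
      (((Multiset.card A : ℝ) + 2) / (A.prod : ℝ)) ^ (1 + ε) ≤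
      K * (A.map (fun y : ℕ => (y : ℝ) ^ (-(1 + ε / 2)))).prod := by
  set δ := ε / 6 with hδ
  have hδ0 : 0 < δ := by positivity
  obtain ⟨K1, hK1, h1⟩ := divisor_bound δ hδ0
  obtain ⟨K2, hK2, h2⟩ := exists_bound_pow (1 + ε + δ) δ hδ0
  refine ⟨K1 * K2, by positivity, fun A hA hA0 => ?_⟩
  set k := Multiset.card A with hk
  set C := A.prod with hC
  have hkpos : 0 < k := Multiset.card_pos.2 hA0
  have hC2 : 2 ^ k ≤ C := two_pow_card_le hA
  have hC2' : 2 ≤ C := le_trans (by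
    calc 2 = 2 ^ 1 := rfl
      _ ≤ 2 ^ k := Nat.pow_le_pow_right two_pos hkpos) hC2
  have hCr : (2 : ℝ) ≤ C := by exact_mod_cast hC2'
  have hC0 : (0 : ℝ) < C := by linarith
  have hS1 : A.sum ≤ k * C := sum_le_card_mul fun y hy => le_prod_of_mem hA hy
  have hS2 : 2 * k ≤ A.sum := by
    have := Multiset.card_nsmul_le_sum (s := A) (a := 2) (fun y hy => hA y hy)
    rw [smul_eq_mul] at this
    rw [mul_comm]; exact this
  set W := C + A.sum - (1 + k) with hW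
  have hWpos : 0 < W := by omega
  have hWle : W ≤ (k + 2) * C := by
    calc W ≤ C + A.sum := Nat.sub_le _ _
      _ ≤ C + k * C := by omega
      _ ≤ (k + 2) * C := by nlinarith
  have hCW : C * W ≠ 0 := by positivity
  have h3 := h1 (C * W) hCW
  have h4 : ((C * W : ℕ) : ℝ) ^ δ ≤ ((k : ℝ) + 2) ^ δ * (C : ℝ) ^ (2 * δ) := by
    have h5 : ((C * W : ℕ) : ℝ) ≤ ((k : ℝ) + 2) * ((C : ℝ) ^ (2 : ℝ)) := by
      have : C * W ≤ (k + 2) * C ^ 2 := by
        calc C * W ≤ C * ((k + 2) * C) := Nat.mul_le_mul_left _ hWle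
          _ = _ := by ring
      have h6 : ((C * W : ℕ) : ℝ) ≤ (((k + 2) * C ^ 2 : ℕ) : ℝ) := by exact_mod_cast this
      rw [Real.rpow_two]
      push_cast at h6 ⊢
      exact h6
    calc ((C * W : ℕ) : ℝ) ^ δ ≤ (((k : ℝ) + 2) * ((C : ℝ) ^ (2 : ℝ))) ^ δ :=
          Real.rpow_le_rpow (by positivity) h5 hδ0.le
      _ = _ := by
          rw [Real.mul_rpow (by positivity) (by positivity), ← Real.rpow_mul hC0.le]
  have h7 : (2 : ℝ) ^ (δ * k) ≤ (C : ℝ) ^ δ := by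
    rw [mul_comm, Real.rpow_mul two_pos.le, Real.rpow_natCast]
    apply Real.rpow_le_rpow (by positivity) _ hδ0.le
    exact_mod_cast hC2
  have h8 : (A.map (fun y : ℕ => (y : ℝ) ^ (-(1 + ε / 2)))).prod = (C : ℝ) ^ (-(1 + ε / 2)) := by
    rw [hC]
    clear_value C
    clear * -
    induction A using Multiset.induction_on with
    | empty => simp
    | cons a A ih =>
      rw [Multiset.map_cons, Multiset.prod_cons, Multiset.prod_cons, ih, Nat.cast_mul,
        Real.mul_rpow (Nat.cast_nonneg _) (Nat.cast_nonneg _)]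
  rw [h8]
  calc ((C * W).divisors.card : ℝ) * (((k : ℝ) + 2) / (C : ℝ)) ^ (1 + ε)
      ≤ (K1 * (((k : ℝ) + 2) ^ δ * (C : ℝ) ^ (2 * δ))) *
          (((k : ℝ) + 2) / (C : ℝ)) ^ (1 + ε) := by
        apply mul_le_mul_of_nonneg_right _ (by positivity)
        exact h3.trans (mul_le_mul_of_nonneg_left h4 (by linarith))
    _ = K1 * (((k : ℝ) + 2) ^ (1 + ε + δ)) * ((C : ℝ) ^ (2 * δ) * (C : ℝ) ^ (-(1 + ε))) := by
        rw [Real.div_rpow (by positivity) hC0.le, Real.rpow_add (by positivity) (1 + ε) δ,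
          Real.rpow_neg hC0.le]
        ring
    _ ≤ K1 * (K2 * (2 : ℝ) ^ (δ * k)) * ((C : ℝ) ^ (2 * δ) * (C : ℝ) ^ (-(1 + ε))) := by
        apply mul_le_mul_of_nonneg_right _ (by positivity)
        exact mul_le_mul_of_nonneg_left (h2 k) (by linarith)
    _ ≤ K1 * (K2 * (C : ℝ) ^ δ) * ((C : ℝ) ^ (2 * δ) * (C : ℝ) ^ (-(1 + ε))) := by
        apply mul_le_mul_of_nonneg_right _ (by positivity)
        apply mul_le_mul_of_nonneg_left _ (by linarith)
        exact mul_le_mul_of_nonneg_left h7 (by linarith)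
    _ = K1 * K2 * ((C : ℝ) ^ δ * ((C : ℝ) ^ (2 * δ) * (C : ℝ) ^ (-(1 + ε)))) := by ring
    _ = K1 * K2 * (C : ℝ) ^ (-(1 + ε / 2)) := by
        rw [← Real.rpow_add hC0, ← Real.rpow_add hC0]
        congr 2
        rw [hδ]; ring

theorem main_bound (ε : ℝ) (hε : 0 < ε) : ∃ K : ℝ, ∀ P : Finset ℕ, (∀ p ∈ P, p.Prime) →
    (∀ p ∈ P, (p : ℝ) ^ ε < ((Sol p).ncard : ℝ)) → ∑ p ∈ P, (1 : ℝ) / p ≤ K := by
  classical
  obtain ⟨K1, hK1, h1⟩ := core_bound ε hε
  obtain ⟨K2, h2⟩ := multiset_sum_bound (1 + ε / 2) (by linarith)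
  refine ⟨K1 * K2, fun P hP hN => ?_⟩
  have hfin : ∀ p ∈ P, (Sol p).Finite := by
    intro p hp
    by_contra h
    have h3 := hN p hp
    rw [Set.Infinite.ncard h] at h3
    have : (0 : ℝ) < (p : ℝ) ^ ε := Real.rpow_pos_of_pos (by exact_mod_cast (hP p hp).pos) _
    norm_num at h3
    linarith
  -- finset of solutions
  set F : (p : ℕ) → Finset (Fin p → ℕ) := fun p =>
    if h : (Sol p).Finite then h.toFinset else ∅ with hF
  have hFmem : ∀ p ∈ P, ∀ x, x ∈ F p ↔ x ∈ Sol p := by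
    intro p hp x
    simp only [hF, dif_pos (hfin p hp), Set.Finite.mem_toFinset]
  have hFcard : ∀ p ∈ P, ((F p).card : ℝ) = ((Sol p).ncard : ℝ) := by
    intro p hp
    simp only [hF, dif_pos (hfin p hp)]
    rw [Set.ncard_eq_toFinset_card _ (hfin p hp)]
  set Q := P.sigma F with hQ
  have hQmem : ∀ q ∈ Q, q.1 ∈ P ∧ q.1.Prime ∧ q.2 ∈ Sol q.1 := by
    intro q hq
    rw [hQ, Finset.mem_sigma] at hq
    exact ⟨hq.1, hP _ hq.1, (hFmem _ hq.1 _).1 hq.2⟩
  set g : Multiset ℕ → ℝ := fun A => (((Multiset.card A : ℝ) + 2) / (A.prod : ℝ)) ^ (1 + ε) with hg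
  have hg0 : ∀ A, 0 ≤ g A := fun A => by positivity
  have step1 : ∑ p ∈ P, (1 : ℝ) / p ≤ ∑ q ∈ Q, (q.1 : ℝ) ^ (-(1 + ε)) := by
    rw [hQ, Finset.sum_sigma]
    apply Finset.sum_le_sum
    intro p hp
    have hp0 : (0 : ℝ) < p := by exact_mod_cast (hP p hp).pos
    simp only [Finset.sum_const, nsmul_eq_mul]
    rw [hFcard p hp]
    calc (1 : ℝ) / p = (p : ℝ) ^ ε * (p : ℝ) ^ (-(1 + ε)) := by
          rw [← Real.rpow_add hp0]
          have : ε + -(1 + ε) = -1 := by ring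
          rw [this, Real.rpow_neg_one, one_div]
      _ ≤ _ := mul_le_mul_of_nonneg_right (hN p hp).le (by positivity)
  have step2 : ∑ q ∈ Q, (q.1 : ℝ) ^ (-(1 + ε)) ≤ ∑ q ∈ Q, g (enc q).1 := by
    apply Finset.sum_le_sum
    intro q hq
    obtain ⟨hqP, hqp, hqS⟩ := hQmem q hq
    obtain ⟨D, ρ, hD0, hD, hCle, -, -, -, -⟩ := sol_structure hqp hqS
    have hp0 : (0 : ℝ) < q.1 := by exact_mod_cast hqp.pos
    show (q.1 : ℝ) ^ (-(1 + ε)) ≤ g (core (mset q.2) (top q.2))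
    rw [hg]
    simp only
    set A := core (mset q.2) (top q.2)
    have hC0 : (0 : ℝ) < A.prod := by
      have : 0 < A.prod := by omega
      exact_mod_cast this
    have h3 : ((q.1 : ℝ))⁻¹ ≤ ((Multiset.card A : ℝ) + 2) / (A.prod : ℝ) := by
      rw [inv_le_iff_one_le_mul₀ hp0, div_mul_eq_mul_div, one_le_div hC0]
      have h := (Nat.cast_le (α := ℝ)).2 hCle
      rw [Nat.cast_mul, Nat.cast_add, Nat.cast_ofNat] at h
      linarith
    rw [Real.rpow_neg hp0.le, ← Real.inv_rpow hp0.le]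
    exact Real.rpow_le_rpow (by positivity) h3 (by linarith)
  have hinj : Set.InjOn enc (Q : Set (Σ n : ℕ, Fin n → ℕ)) := by
    apply enc_injOn.mono
    intro q hq
    obtain ⟨-, h3, h4⟩ := hQmem q hq
    exact ⟨h3, h4⟩
  have step3 : ∑ q ∈ Q, g (enc q).1 = ∑ u ∈ Q.image enc, g u.1 := by
    rw [Finset.sum_image hinj]
  set 𝒜 := (Q.image enc).image Prod.fst with h𝒜
  set N : Multiset ℕ → ℕ := fun A => A.prod * (A.prod + A.sum - (1 + Multiset.card A)) with hNdef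
  have step4 : ∑ u ∈ Q.image enc, g u.1 ≤ ∑ u ∈ 𝒜.sigma (fun A => (N A).divisors), g u.1 := by
    have h5 : ∑ u ∈ Q.image enc, g u.1 =
        ∑ u ∈ (Q.image enc).image (fun u => (⟨u.1, u.2⟩ : Σ _ : Multiset ℕ, ℕ)), g u.1 := by
      symm
      apply Finset.sum_image
      rintro ⟨a, b⟩ _ ⟨a', b'⟩ _ h
      simp only [Sigma.mk.injEq, heq_eq_eq] at h
      exact Prod.ext h.1 h.2
    rw [h5]
    apply Finset.sum_le_sum_of_subset_of_nonneg
    · intro u hu
      rw [Finset.mem_image] at hu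
      obtain ⟨v, hv, rfl⟩ := hu
      rw [Finset.mem_sigma]
      refine ⟨Finset.mem_image_of_mem _ hv, ?_⟩
      rw [Finset.mem_image] at hv
      obtain ⟨q, hq, rfl⟩ := hv
      obtain ⟨hqP, hqp, hqS⟩ := hQmem q hq
      obtain ⟨D, ρ, hD0, hD, hCle, hρ, -, -, hdvd⟩ := sol_structure hqp hqS
      simp only [enc, hNdef]
      set A := core (mset q.2) (top q.2)
      have e1 : A.prod - q.1 = D := by omega
      have e2 : A.prod + A.sum - (1 + Multiset.card A) = A.sum + ρ + D := by omega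
      rw [e1, e2, Nat.mem_divisors]
      refine ⟨hdvd, ?_⟩
      have : 0 < A.prod := by omega
      have : 0 < A.sum + ρ + D := by omega
      positivity
    · intro u _ _
      exact hg0 _
  have h𝒜mem : ∀ A ∈ 𝒜, (∀ y ∈ A, 2 ≤ y) ∧ A ≠ 0 := by
    intro A hA
    rw [h𝒜, Finset.mem_image] at hA
    obtain ⟨v, hv, rfl⟩ := hA
    rw [Finset.mem_image] at hv
    obtain ⟨q, hq, rfl⟩ := hv
    obtain ⟨hqP, hqp, hqS⟩ := hQmem q hq
    obtain ⟨D, ρ, hD0, hD, hCle, hρ, -, -, hdvd⟩ := sol_structure hqp hqS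
    refine ⟨fun y (hy : y ∈ core (mset q.2) (top q.2)) => core_two_le hy, fun h0 => ?_⟩
    change core (mset q.2) (top q.2) = 0 at h0
    rw [h0] at hD
    have := hqp.two_le
    simp at hD
    omega
  calc ∑ p ∈ P, (1 : ℝ) / p ≤ ∑ q ∈ Q, (q.1 : ℝ) ^ (-(1 + ε)) := step1
    _ ≤ ∑ q ∈ Q, g (enc q).1 := step2
    _ = ∑ u ∈ Q.image enc, g u.1 := step3
    _ ≤ ∑ u ∈ 𝒜.sigma (fun A => (N A).divisors), g u.1 := step4
    _ = ∑ A ∈ 𝒜, ((N A).divisors.card : ℝ) * g A := by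
        rw [Finset.sum_sigma]
        apply Finset.sum_congr rfl
        intro A _
        simp [Finset.sum_const, nsmul_eq_mul]
    _ ≤ ∑ A ∈ 𝒜, K1 * (A.map (fun y : ℕ => (y : ℝ) ^ (-(1 + ε / 2)))).prod := by
        apply Finset.sum_le_sum
        intro A hA
        exact h1 A (h𝒜mem A hA).1 (h𝒜mem A hA).2
    _ = K1 * ∑ A ∈ 𝒜, (A.map (fun y : ℕ => (y : ℝ) ^ (-(1 + ε / 2)))).prod := by
        rw [Finset.mul_sum]
    _ ≤ K1 * K2 := mul_le_mul_of_nonneg_left (h2 𝒜 fun A hA => (h𝒜mem A hA).1) hK1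

theorem main : ¬ (∃ ε : ℝ, 0 < ε ∧ ∃ N : ℕ, ∀ n : ℕ, N ≤ n →
      (n : ℝ) ^ ε < ((Sol n).ncard : ℝ)) := by
  rintro ⟨ε, hε, N, hN⟩
  obtain ⟨K, hK⟩ := main_bound ε hε
  apply not_summable_one_div_on_primes
  rw [← summable_nat_add_iff N]
  apply summable_of_sum_le (c := K)
  · intro n
    apply Set.indicator_nonneg
    intro n _
    positivity
  · intro u
    set P := (u.image (· + N)).filter Nat.Prime with hP
    have h1 : ∑ x ∈ u, ({p : ℕ | Nat.Prime p}.indicator (fun n : ℕ => (1 : ℝ) / n)) (x + N) =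
        ∑ p ∈ P, (1 : ℝ) / p := by
      rw [hP, Finset.sum_filter, Finset.sum_image (by intro a _ b _ h; simpa using h)]
      apply Finset.sum_congr rfl
      intro x _
      rw [Set.indicator_apply]
      rfl
    rw [h1]
    apply hK P
    · intro p hp
      exact (Finset.mem_filter.1 hp).2
    · intro p hp
      apply hN
      obtain ⟨x, _, rfl⟩ := Finset.mem_image.1 (Finset.mem_filter.1 hp).1
      exact Nat.le_add_left N x

end Pool.Agent.MP_db34dc_nt
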