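import Pool.Agent.Lib_MP_db34dc_nt.Basic
set_option autoImplicit false
namespace Pool.Agent.MP_db34dc_nt

theorem sum_le_card_mul {A : Multiset ℕ} {z : ℕ} (h : ∀ y ∈ A, y ≤ z) :
    A.sum ≤ Multiset.card A * z := by
  have := Multiset.sum_le_card_nsmul A z h
  simpa using this

theorem le_prod_of_mem {A : Multiset ℕ} (hA : ∀ y ∈ A, 2 ≤ y) {y : ℕ} (hy : y ∈ A) :
    y ≤ A.prod := by
  apply Nat.le_of_dvd
  · apply Multiset.prod_pos
    intro y hy
    have := hA y hy
    omega
  · exact Multiset.dvd_prod hy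

theorem two_pow_card_le {A : Multiset ℕ} (hA : ∀ y ∈ A, 2 ≤ y) :
    2 ^ (Multiset.card A) ≤ A.prod := by
  induction A using Multiset.induction_on with
  | empty => simp
  | cons a A ih =>
    rw [Multiset.card_cons, Multiset.prod_cons, pow_succ, mul_comm]
    exact Nat.mul_le_mul (hA a (Multiset.mem_cons_self a A))
      (ih fun y hy => hA y (Multiset.mem_cons_of_mem hy))

/-- The non-one entries other than (one copy of) the largest entry `z`. -/
def core (M : Multiset ℕ) (z : ℕ) : Multiset ℕ := (M.erase z).filter (2 ≤ ·)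

theorem core_two_le {M : Multiset ℕ} {z y : ℕ} (hy : y ∈ core M z) : 2 ≤ y :=
  (Multiset.mem_filter.1 hy).2

theorem structure_lemma {p : ℕ} (hp : p.Prime) {M : Multiset ℕ} (hcard : Multiset.card M = p)
    (hpos : ∀ y ∈ M, 0 < y) (heq : M.prod = p * M.sum) {z : ℕ} (hz : z ∈ M)
    (hmax : ∀ y ∈ M, y ≤ z) :
    ∃ D ρ : ℕ, 0 < D ∧ (core M z).prod = p + D ∧
      (core M z).prod ≤ p * (Multiset.card (core M z) + 2) ∧
      p = 1 + Multiset.card (core M z) + ρ ∧
      z * D = p * ((core M z).sum + ρ) ∧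
      M = z ::ₘ (core M z + Multiset.replicate ρ 1) ∧
      D ∣ (core M z).prod * ((core M z).sum + ρ + D) := by
  set A := core M z with hA
  set R := (M.erase z).filter (fun y => ¬ 2 ≤ y) with hR
  set ρ := Multiset.card R with hρ
  have hAR : A + R = M.erase z := Multiset.filter_add_not _ _
  have hR1 : R = Multiset.replicate ρ 1 := by
    rw [Multiset.eq_replicate]
    refine ⟨rfl, fun y hy => ?_⟩
    rw [hR, Multiset.mem_filter] at hy
    have := hpos y (Multiset.mem_of_mem_erase hy.1)
    omega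
  have hM : M = z ::ₘ (A + Multiset.replicate ρ 1) := by
    rw [← hR1, hAR, Multiset.cons_erase hz]
  have hcard' : p = 1 + Multiset.card A + ρ := by
    rw [← hcard]
    conv_lhs => rw [hM]
    rw [Multiset.card_cons, Multiset.card_add, Multiset.card_replicate]
    ring
  have hprod : M.prod = z * A.prod := by
    conv_lhs => rw [hM]
    rw [Multiset.prod_cons, Multiset.prod_add, Multiset.prod_replicate, one_pow, mul_one]
  have hsum : M.sum = z + (A.sum + ρ) := by
    conv_lhs => rw [hM]
    rw [Multiset.sum_cons, Multiset.sum_add, Multiset.sum_replicate]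
    simp
  have hA2 : ∀ y ∈ A, 2 ≤ y := fun y hy => core_two_le hy
  have hAM : ∀ y ∈ A, y ∈ M := fun y hy =>
    Multiset.mem_of_mem_erase (Multiset.mem_filter.1 hy).1
  have hzpos := hpos z hz
  have hmain : z * A.prod = p * (z + (A.sum + ρ)) := by rw [← hprod, heq, hsum]
  -- z ≥ p
  have hzp : p ≤ z := by
    have hdvd : p ∣ z * A.prod := ⟨_, hmain⟩
    rcases (hp.dvd_mul).1 hdvd with h | h
    · exact Nat.le_of_dvd hzpos h
    · obtain ⟨y, hy, hpy⟩ := (Nat.Prime.prime hp).exists_mem_multiset_dvd h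
      have h1 : p ≤ y := Nat.le_of_dvd (hpos y (hAM y hy)) hpy
      exact h1.trans (hmax y (hAM y hy))
  have hSρ : 1 ≤ A.sum + ρ := by
    have h2 : Multiset.card A ≤ A.sum := by
      have := Multiset.card_nsmul_le_sum (s := A) (a := 1) (fun y hy => by have := hA2 y hy; omega)
      simpa using this
    have := hp.two_le
    omega
  have hCp : p < A.prod := by
    by_contra h
    push Not at h
    have h1 : z * A.prod ≤ z * p := Nat.mul_le_mul_left _ h
    have h2 : p * (z + (A.sum + ρ)) = z * p + p * (A.sum + ρ) := by ring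
    have h3 : 0 < p * (A.sum + ρ) := Nat.mul_pos hp.pos hSρ
    omega
  obtain ⟨D, hD⟩ : ∃ D, A.prod = p + D := ⟨A.prod - p, by omega⟩
  have hDpos : 0 < D := by omega
  have hzD : z * D = p * (A.sum + ρ) := by
    have h1 : z * (p + D) = p * (z + (A.sum + ρ)) := by rw [← hD]; exact hmain
    have h2 : z * p + z * D = z * p + p * (A.sum + ρ) := by
      rw [← mul_add, h1]; ring
    exact Nat.add_left_cancel h2
  refine ⟨D, ρ, hDpos, hD, ?_, hcard', hzD, hM, ?_⟩
  · have hS : A.sum ≤ Multiset.card A * z := sum_le_card_mul fun y hy => hmax y (hAM y hy)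
    have hρz : ρ ≤ z := by omega
    have h1 : z * A.prod ≤ z * (p * (Multiset.card A + 2)) := by
      rw [hmain]
      calc p * (z + (A.sum + ρ)) ≤ p * (z + (Multiset.card A * z + z)) := by gcongr
        _ = _ := by ring
    exact Nat.le_of_mul_le_mul_left h1 hzpos
  · refine ⟨z + p + A.sum + ρ + D, ?_⟩
    rw [hD]
    have : (p + D) * (A.sum + ρ + D) = p * (A.sum + ρ) + D * (p + A.sum + ρ + D) := by ring
    rw [this, ← hzD]; ring

theorem monotone_ext {n : ℕ} {x y : Fin n → ℕ} (hx : Monotone x) (hy : Monotone y)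
    (h : (Finset.univ.val.map x : Multiset ℕ) = Finset.univ.val.map y) : x = y := by
  have h1 : List.Perm (List.ofFn x) (List.ofFn y) := by
    rw [← Multiset.coe_eq_coe]
    have e : ∀ u : Fin n → ℕ, ((List.ofFn u : List ℕ) : Multiset ℕ) = Finset.univ.val.map u := by
      intro u
      rw [List.ofFn_eq_map]
      rfl
    rw [e, e, h]
  have h2 : List.ofFn x = List.ofFn y := by
    apply List.Perm.eq_of_sortedLE _ _ h1
    · exact hx.sortedLE_ofFn
    · exact hy.sortedLE_ofFn
  exact List.ofFn_injective h2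

end Pool.Agent.MP_db34dc_nt
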